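import Pool.Agent.SHA.StmtsB
import Pool.Agent.Helper70_SHA.CONV

/-! # SHA, row B_CWV -/

set_option autoImplicit false

namespace Pool.Agent.SHA.H77

open Pool.Agent.Helper18_Helly Pool.Agent.SHA.H70

universe u

/-- the points `w j`, `j < a` -/
def PW (a : ℕ) : Finset Pt.{u} := (Finset.range a).map ⟨Pt.w.{u}, inj_w.{u}⟩

/-- the points `q j`, `j < a` -/
def PQ (a : ℕ) : Finset Pt.{u} := (Finset.range a).map ⟨Pt.q.{u}, inj_q.{u}⟩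

lemma mem_PW {a : ℕ} {p : Pt.{u}} : p ∈ PW.{u} a ↔ ∃ j, j < a ∧ Pt.w j = p := by
  rw [PW, Finset.mem_map]
  exact ⟨fun ⟨j, hj, h⟩ => ⟨j, Finset.mem_range.1 hj, h⟩,
    fun ⟨j, hj, h⟩ => ⟨j, Finset.mem_range.2 hj, h⟩⟩

lemma mem_PQ {a : ℕ} {p : Pt.{u}} : p ∈ PQ.{u} a ↔ ∃ j, j < a ∧ Pt.q j = p := by
  rw [PQ, Finset.mem_map]
  exact ⟨fun ⟨j, hj, h⟩ => ⟨j, Finset.mem_range.1 hj, h⟩,
    fun ⟨j, hj, h⟩ => ⟨j, Finset.mem_range.2 hj, h⟩⟩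

/-- weights -/
def yw (y : ℕ → ℝ) : Pt.{u} → ℝ
  | Pt.w j => y j
  | _ => 0

/-- weights -/
def yq (y : ℕ → ℝ) : Pt.{u} → ℝ
  | Pt.q j => y j
  | _ => 0

lemma sum_PW (a : ℕ) (y : ℕ → ℝ) : ∑ p ∈ PW.{u} a, yw y p = ∑ j ∈ Finset.range a, y j := by
  rw [PW, Finset.sum_map]
  rfl

lemma sum_PQ (a : ℕ) (y : ℕ → ℝ) : ∑ p ∈ PQ.{u} a, yq y p = ∑ j ∈ Finset.range a, y j := by
  rw [PQ, Finset.sum_map]
  rfl

open Classical in
lemma sumf_PW (a t : ℕ) (y : ℕ → ℝ) (I : ℕ → Finset ℕ) :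
    ∑ p ∈ (PW.{u} a).filter (fun p => Pt.a t ∈ jw.{u} I p), yw y p =
      ∑ j ∈ (Finset.range a).filter (fun j => t ∈ I j), y j := by
  rw [Finset.sum_filter, Finset.sum_filter, PW, Finset.sum_map]
  refine Finset.sum_congr rfl fun j _ => ?_
  have h : (Pt.a.{u} t ∈ jw.{u} I (Pt.w j)) ↔ t ∈ I j := by
    rw [jw_w]
    constructor
    · rintro ⟨t', ht', h⟩
      cases h
      exact ht'
    · intro ht
      exact ⟨t, ht, rfl⟩
  show (if Pt.a.{u} t ∈ jw.{u} I (Pt.w j) then y j else 0) = _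
  by_cases ht : t ∈ I j
  · rw [if_pos ht, if_pos (h.2 ht)]
  · rw [if_neg ht, if_neg (fun h' => ht (h.1 h'))]

open Classical in
lemma sumf_PQ (a t : ℕ) (y : ℕ → ℝ) (I : ℕ → Finset ℕ) :
    ∑ p ∈ (PQ.{u} a).filter (fun p => Pt.f 0 t ∈ jq.{u} I p), yq y p =
      ∑ j ∈ (Finset.range a).filter (fun j => t ∈ I j), y j := by
  rw [Finset.sum_filter, Finset.sum_filter, PQ, Finset.sum_map]
  refine Finset.sum_congr rfl fun j _ => ?_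
  have h : (Pt.f.{u} 0 t ∈ jq.{u} I (Pt.q j)) ↔ t ∈ I j := by
    rw [jq_q]
    constructor
    · rintro ⟨t', ht', h⟩
      cases h
      exact ht'
    · intro ht
      exact ⟨t, ht, rfl⟩
  show (if Pt.f.{u} 0 t ∈ jq.{u} I (Pt.q j) then y j else 0) = _
  by_cases ht : t ∈ I j
  · rw [if_pos ht, if_pos (h.2 ht)]
  · rw [if_neg ht, if_neg (fun h' => ht (h.1 h'))]

/-- row B_CWV -/
theorem cwv (h1 : CO1Stmt.{u}) (h2 : CW2Stmt.{u}) : CWVStmt.{u} := by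
  intro s a a' b N N' I I' y y' hs ha ha' hI hIc hI0 hI' hIc' hI0' hy hy' hk hk' hb
  have dPA : Disjoint (PW.{u} a : Set Pt.{u}) (sA.{u} N) := by
    rw [Set.disjoint_left]
    intro p hp hq
    obtain ⟨j, -, rfl⟩ := mem_PW.1 (Finset.mem_coe.1 hp)
    obtain ⟨n, -, h⟩ := hq
    cases h
  have dPB : Disjoint (PW.{u} a : Set Pt.{u}) (sF.{u} 0 N') := by
    rw [Set.disjoint_left]
    intro p hp hq
    obtain ⟨j, -, rfl⟩ := mem_PW.1 (Finset.mem_coe.1 hp)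
    obtain ⟨n, -, h⟩ := hq
    cases h
  have dQA : Disjoint (PQ.{u} a' : Set Pt.{u}) (sA.{u} N) := by
    rw [Set.disjoint_left]
    intro p hp hq
    obtain ⟨j, -, rfl⟩ := mem_PQ.1 (Finset.mem_coe.1 hp)
    obtain ⟨n, -, h⟩ := hq
    cases h
  have dQB : Disjoint (PQ.{u} a' : Set Pt.{u}) (sF.{u} 0 N') := by
    rw [Set.disjoint_left]
    intro p hp hq
    obtain ⟨j, -, rfl⟩ := mem_PQ.1 (Finset.mem_coe.1 hp)
    obtain ⟨n, -, h⟩ := hq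
    cases h
  have dAB : Disjoint (sA.{u} N) (sF.{u} 0 N') := by
    rw [Set.disjoint_left]; rintro _ ⟨n, -, rfl⟩; simp
  have dPQ : Disjoint (PW.{u} a : Set Pt.{u}) (PQ.{u} a' : Set Pt.{u}) := by
    rw [Set.disjoint_left]
    intro p hp hq
    obtain ⟨j, -, rfl⟩ := mem_PW.1 (Finset.mem_coe.1 hp)
    obtain ⟨n, -, h⟩ := mem_PQ.1 (Finset.mem_coe.1 hq)
    cases h
  have cP : (PW.{u} a).card = a := by rw [PW, Finset.card_map, Finset.card_range]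
  have cQ : (PQ.{u} a').card = a' := by rw [PQ, Finset.card_map, Finset.card_range]
  have eP : (PW.{u} a : Set Pt.{u}).encard = (a : ℕ∞) := by
    rw [Set.encard_coe_eq_coe_finsetCard, cP]
  have eQ : (PQ.{u} a' : Set Pt.{u}).encard = (a' : ℕ∞) := by
    rw [Set.encard_coe_eq_coe_finsetCard, cQ]
  have jA : ∀ p ∈ PW.{u} a, jw.{u} I p ⊆ sA.{u} N := by
    intro p hp
    obtain ⟨j, hj, rfl⟩ := mem_PW.1 hp
    rw [jw_w]
    exact Set.image_mono fun t ht => hI j hj t ht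
  have jB : ∀ p ∈ PQ.{u} a', jq.{u} I' p ⊆ sF.{u} 0 N' := by
    intro p hp
    obtain ⟨j, hj, rfl⟩ := mem_PQ.1 hp
    rw [jq_q]
    exact Set.image_mono fun t ht => hI' j hj t ht
  obtain ⟨al1, he1⟩ := h1 Pt.{u} (PW.{u} a : Set Pt.{u}) (sA.{u} N) (sF.{u} 0 N')
    ((PW.{u} a : Set Pt.{u}) ∪ (sA.{u} N ∪ sF.{u} 0 N')) (jw.{u} I) (Pt.w 0) s a hs dPA dPB dAB
    rfl eP (Finset.mem_coe.2 (mem_PW.2 ⟨0, ha, rfl⟩))
    (by
      intro p hp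
      refine ⟨jA p (Finset.mem_coe.1 hp), ?_⟩
      obtain ⟨j, hj, rfl⟩ := mem_PW.1 (Finset.mem_coe.1 hp)
      rw [encard_jw]
      exact_mod_cast hIc j hj)
    (by rw [encard_jw]; exact_mod_cast hI0)
  obtain ⟨al2, he2⟩ := h1 Pt.{u} (PQ.{u} a' : Set Pt.{u}) (sF.{u} 0 N') (sA.{u} N)
    ((PQ.{u} a' : Set Pt.{u}) ∪ (sF.{u} 0 N' ∪ sA.{u} N)) (jq.{u} I') (Pt.q 0) s a' hs dQB dQA
    dAB.symm rfl eQ (Finset.mem_coe.2 (mem_PQ.2 ⟨0, ha', rfl⟩))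
    (by
      intro p hp
      refine ⟨jB p (Finset.mem_coe.1 hp), ?_⟩
      obtain ⟨j, hj, rfl⟩ := mem_PQ.1 (Finset.mem_coe.1 hp)
      rw [encard_jq]
      exact_mod_cast hIc' j hj)
    (by rw [encard_jq]; exact_mod_cast hI0')
  have hsum := h2 Pt.{u} (PW.{u} a) (PQ.{u} a') (sA.{u} N)
    (sF.{u} 0 N') ((PW.{u} a : Set Pt.{u}) ∪ (sA.{u} N ∪ sF.{u} 0 N'))
    ((PQ.{u} a' : Set Pt.{u}) ∪ (sF.{u} 0 N' ∪ sA.{u} N)) (jw.{u} I) (jq.{u} I') (yw y) (yq y') s b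
    hs dPQ dPA dPB dQA dQB dAB rfl rfl jA jB
    (by
      intro p hp
      obtain ⟨j, hj, rfl⟩ := mem_PW.1 hp
      exact hy j hj)
    (by
      intro p hp
      obtain ⟨j, hj, rfl⟩ := mem_PQ.1 hp
      exact hy' j hj)
    (by
      rintro _ ⟨t, ht, rfl⟩
      rw [sumf_PW, sum_PQ]
      exact hk t ht)
    (by
      rintro _ ⟨t, ht, rfl⟩
      rw [sumf_PQ, sum_PW]
      exact hk' t ht)
    (by
      rw [sum_PW, sum_PQ, cP, cQ]
      exact hb)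
  rw [encard_sA] at he1
  rw [encard_sF] at he2
  have hne := ne_top_of_le_ne_top (ENat.natCast_ne_top b) hsum
  refine ⟨_, ?_, Pt.{u}, _, _, _, _, al1, al2, he1, he2, (ENat.natCast_toNat hne).symm⟩
  have := ENat.natCast_toNat hne
  rw [← this] at hsum
  exact_mod_cast hsum

end Pool.Agent.SHA.H77
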